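import Pool.Agent.H148S.FinL
import Pool.Agent.H148N.Ex

/-!
# Empty Selmer sets over all extensions of bounded degree: few closed subsets of any dimension

`E : y² = x³ + a x + b` is an elliptic curve over a number field `k` (`a, b ∈ 𝓞 k`, any rank, with or
without complex multiplication), and `X ⊂ E ^ r × ℙ ^ n` is an arbitrary closed subvariety over `k`,
given by equations `G_l(V; y) = 0` which are homogeneous in the coordinates `V_i` of each of the `r`
plane cubics `E` and in `y`; it is a family of closed subsets `X_y ⊂ E ^ r` with the parameters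
`y ∈ ℙ ^ n`. For a complex point `S` of `E ^ r` let `Sums G m S ⊂ ℙ ^ n` be the set of the `y` such
that `S` is the sum of `m` complex points of `X_y`.

Suppose that for `1 ≤ m ≤ M` and all `S` the dimension of `Sums G m S` is at most `e` (for `M = 1`:
all fibres of `X → E ^ r` have dimension at most `e`). There is a number `D` such that for every
number field `K ⊇ k` for which the Tate-Shafarevich group of `E` over `K` is killed by some `M₀ ≥ 1`
(nothing is assumed over larger fields), all `ε > 0` and all `B ≥ 1` there is ONE level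
`N ≤ C B ^ ε` such that, outside of at most `C B ^ ε` closed subsets of `ℙ ^ n`, each of dimension at
most `e` and given by equations of degree at most `D`, for all points `y ∈ ℙ ^ n (K)` of height at
most `B` and ALL extensions `F` of `K` of degree at most `M` the `N`-Selmer set of `X_y` over `F` is
empty: no `N`-covering of `E ^ r` over `F` has a pull-back to `X_y` with points over all completions
of `F` at finite places. In particular these `X_y` (and everything which maps to them, for example
curves) have no points over `F`, and finite descent explains this, by abelian coverings of one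
exponent `N`, over all these fields at once. Every finite grid `S ^ n ⊂ K ^ n` contains at most
`C B ^ ε |S| ^ e` exceptional points `y` of height at most `B`.

`instances` below is an explicit class: the complete intersections `X_y : ∑_i f_li(P) y_i ^ m = 0`
(`l = 1, …, s`) in `E ^ r`, `(f_li)` any `s × (n + 1)` matrix of forms over `𝓞 k`, the `l`-th row of
multidegree `d_l`, which has rank `s` at all complex points of `E ^ r`. Here `M = 1` and `e = n - s`.
For `s = r - 1` the `X_y` are curves (or of larger dimension for special `y`).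

Known (starting library of this pool, SelmerSetsOverExtensions, over one field `K`): `e = 0`; its
engine `Pool/Agent/Y213/CT` is used here: corestriction to `K` of the classes of the coverings and the
sieve with traces of local points. New is the sieve for closed subsets of any dimension, with bounds
on the degrees which do not depend on `K`: the monomials in any `e + 2` coordinates are linearly
dependent modulo each prime, with an ultraproduct for the uniformity, and the determinants vanish by
the size of the product of the primes.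
-/

set_option autoImplicit false

namespace Pool.Agent.Results.MP_d37f77_nt.SelmerFewSubvarieties

open MvPolynomial NumberField Pool.Agent.TH954
open Pool.Agent.H148N (curve MultiHomog Sums DimLE DimDegLE aff IsForm OnE diag)
open Pool.Agent.H148S (HasSelmer)

open scoped LinearAlgebra.Projectivization

theorem result (k : Type) [Field k] [NumberField k] (σ : k →+* ℂ) (a b : 𝓞 k)
    (hE : 4 * a ^ 3 + 27 * b ^ 2 ≠ 0) (r n q : ℕ)
    (G : Fin q → MvPolynomial ((Fin r × Fin 3) ⊕ Fin (n + 1)) (𝓞 k))
    (d : Fin q → Fin r → ℕ) (deg : Fin q → ℕ) (hG : ∀ l, MultiHomog (G l) (d l) (deg l))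
    (M e : ℕ) (hX : ∀ m, 1 ≤ m → m ≤ M → ∀ S, DimLE e (Sums σ a b G m S)) :
    ∃ D : ℕ, ∀ (K : Type) [Field K] [NumberField K] [Algebra k K] (M₀ : ℕ), 1 ≤ M₀ →
      ShaKilledBy (curve (algebraMap k K a) (algebraMap k K b)) M₀ → ∀ ε : ℝ, 0 < ε →
      ∃ C : ℝ, ∀ B : ℝ, 1 ≤ B → ∃ N : ℕ, 1 ≤ N ∧ (N : ℝ) ≤ C * B ^ ε ∧
        (∃ 𝒵 : Finset (Set (ℙ K (Fin (n + 1) → K))), (𝒵.card : ℝ) ≤ C * B ^ ε ∧
          (∀ Z ∈ 𝒵, DimDegLE e D Z) ∧
          ∀ y : ℙ K (Fin (n + 1) → K), y.mulHeight ≤ B → HasSelmer a b G M N y →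
            ∃ Z ∈ 𝒵, y ∈ Z) ∧
        ∀ S : Finset K, S.Nonempty →
          ({t : Fin n → K | (∀ i, t i ∈ S) ∧ (aff t).mulHeight ≤ B ∧
            HasSelmer a b G M N (aff t)}.ncard : ℝ) ≤ C * B ^ ε * (S.card : ℝ) ^ e :=
  Pool.Agent.H148S.selmer_main k σ a b hE r n q G d deg hG M e hX

/-- an explicit class of complete intersections in `E ^ r` -/
theorem instances (k : Type) [Field k] [NumberField k] (σ : k →+* ℂ) (a b : 𝓞 k)
    (hE : 4 * a ^ 3 + 27 * b ^ 2 ≠ 0) (r n s m : ℕ) (hs : 1 ≤ s) (hsn : s ≤ n) (hm : 1 ≤ m)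
    (f : Fin s → Fin (n + 1) → MvPolynomial (Fin r × Fin 3) (𝓞 k)) (d : Fin s → Fin r → ℕ)
    (hf : ∀ l i, IsForm (f l i) (d l))
    (hrk : ∀ V : Fin r → Fin 3 → ℂ, (∀ i, OnE (σ a) (σ b) (V i)) →
      LinearIndependent ℂ (fun (l : Fin s) (i : Fin (n + 1)) =>
        eval₂ (σ.comp (algebraMap (𝓞 k) k)) (fun ij : Fin r × Fin 3 => V ij.1 ij.2) (f l i))) :
    ∃ D : ℕ, ∀ (K : Type) [Field K] [NumberField K] [Algebra k K] (M₀ : ℕ), 1 ≤ M₀ →
      ShaKilledBy (curve (algebraMap k K a) (algebraMap k K b)) M₀ → ∀ ε : ℝ, 0 < ε →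
      ∃ C : ℝ, ∀ B : ℝ, 1 ≤ B → ∃ N : ℕ, 1 ≤ N ∧ (N : ℝ) ≤ C * B ^ ε ∧
        ∃ 𝒵 : Finset (Set (ℙ K (Fin (n + 1) → K))), (𝒵.card : ℝ) ≤ C * B ^ ε ∧
          (∀ Z ∈ 𝒵, DimDegLE (n - s) D Z) ∧
          ∀ y : ℙ K (Fin (n + 1) → K), y.mulHeight ≤ B →
            HasSelmer a b (fun l => diag m (f l)) 1 N y → ∃ Z ∈ 𝒵, y ∈ Z := by
  obtain ⟨D, hD⟩ := Pool.Agent.H148S.selmer_main k σ a b hE r n s (fun l => diag m (f l)) d
    (fun _ => m) (fun l => Pool.Agent.H148N.diag_homog m (f l) (d l) (hf l)) 1 (n - s)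
    (Pool.Agent.H148N.diag_sums σ a b hs hsn m hm f hrk)
  refine ⟨D, fun K _ _ _ M₀ hM1 hM ε hε => ?_⟩
  obtain ⟨C, hC⟩ := hD K M₀ hM1 hM ε hε
  refine ⟨C, fun B hB => ?_⟩
  obtain ⟨N, hN1, hN, ⟨𝒵, h1, h2, h3⟩, -⟩ := hC B hB
  exact ⟨N, hN1, hN, 𝒵, h1, h2, h3⟩

end Pool.Agent.Results.MP_d37f77_nt.SelmerFewSubvarieties
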